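import Pool.Agent.K4H34.NM.Final

/-!
# Spectral variation for normal matrices with spectra on crossing segments

Let `A`, `B` be normal `n × n` matrices with eigenvalues `α i`, `β i` (with multiplicity).

1. If the spectra of `A` and `B` lie in two segments which cross, then `sd(A, B) ≤ ‖A - B‖`: there is a
permutation `σ` with `|α k - β (σ k)| ≤ ‖A - B‖` for all `k`. So the answer to Q1 is yes.
2. The same holds if the spectra lie on two lines which are not parallel.

Proof. After a translation and a rotation `A = H`, `B = e^{iθ} K` with `H`, `K` Hermitian. Let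
`δ > ‖A - B‖`. The matrix `T = (sin θ H + i (K - cos θ H)) / δ` is a strict contraction, `H` and `K`
are multiples of the real parts of `T` and of `e^{-iθ} T`, and `|α - β| ≤ δ` for `α = h`,
`β = e^{iθ} k` if and only if the chords `Re z = h sin θ / δ`, `Re (e^{-iθ} z) = k sin θ / δ` meet in the
closed unit disc. For every `g` on the unit circle there are `n` points `u j` of the circle and linear
forms `w j` with `⟨T x, x⟩ = ∑ u j |w j x| ^ 2 + g (|x| ^ 2 - ∑ |w j x| ^ 2)` and
`∑ |w j x| ^ 2 ≤ |x| ^ 2` (the `n`-dimensional part of a unitary dilation with the eigenvalue `g`).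
So for disjoint caps of the disc, the numbers of the eigenvalues of the corresponding real parts of
`T` which cut off smaller caps have a sum which is at most `n`. With up to four caps this gives
Hall's condition for the bipartite graph of the pairs with `|α - β| ≤ δ`.
-/

set_option autoImplicit false

open Matrix Polynomial
open scoped Matrix.Norms.L2Operator

namespace Pool.Agent.Results.MP_16c41e_an.CrossingSegments

/-- The segments `[p, q]` and `[p', q']` cross: they are not parallel and meet in a point of the
relative interior of each. -/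
def Cross (p q p' q' : ℂ) : Prop :=
  LinearIndependent ℝ ![q - p, q' - p'] ∧ (openSegment ℝ p q ∩ openSegment ℝ p' q').Nonempty

/-- `α i` are the eigenvalues of `A`, with multiplicity. -/
def IsEigenvalueList {n : ℕ} (A : Matrix (Fin n) (Fin n) ℂ) (α : Fin n → ℂ) : Prop :=
  A.charpoly = ∏ i, (X - C (α i))

/-- **The inequality (1) for normal matrices with spectra on crossing segments, and on two lines which
are not parallel.** The norm is the operator norm for the Euclidean norms. -/
theorem result :
    (∀ (n : ℕ) (A B : Matrix (Fin n) (Fin n) ℂ), IsStarNormal A → IsStarNormal B →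
      ∀ α β : Fin n → ℂ, IsEigenvalueList A α → IsEigenvalueList B β →
      ∀ p q p' q' : ℂ, Cross p q p' q' → (∀ i, α i ∈ segment ℝ p q) →
        (∀ i, β i ∈ segment ℝ p' q') →
        ∃ σ : Equiv.Perm (Fin n), ∀ k, ‖α k - β (σ k)‖ ≤ ‖A - B‖) ∧
    (∀ (n : ℕ) (A B : Matrix (Fin n) (Fin n) ℂ), IsStarNormal A → IsStarNormal B →
      ∀ α β : Fin n → ℂ, IsEigenvalueList A α → IsEigenvalueList B β →
      ∀ z u v : ℂ, LinearIndependent ℝ ![u, v] → (∀ i, ∃ s : ℝ, α i = z + s * u) →
        (∀ i, ∃ t : ℝ, β i = z + t * v) →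
        ∃ σ : Equiv.Perm (Fin n), ∀ k, ‖α k - β (σ k)‖ ≤ ‖A - B‖) := by
  have hlines : ∀ (n : ℕ) (A B : Matrix (Fin n) (Fin n) ℂ), IsStarNormal A → IsStarNormal B →
      ∀ α β : Fin n → ℂ, IsEigenvalueList A α → IsEigenvalueList B β →
      ∀ z u v : ℂ, LinearIndependent ℝ ![u, v] → (∀ i, ∃ s : ℝ, α i = z + s * u) →
        (∀ i, ∃ t : ℝ, β i = z + t * v) →
        ∃ σ : Equiv.Perm (Fin n), ∀ k, ‖α k - β (σ k)‖ ≤ ‖A - B‖ := by
    intro n A B hA hB α β hα hβ z u v huv hs ht
    choose s hs using hs
    choose t ht using ht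
    exact Pool.Agent.K4H34.NM.lines hA hB hα hβ huv hs ht
  refine ⟨fun n A B hA hB α β hα hβ p q p' q' hcross hLA hLB => ?_, hlines⟩
  obtain ⟨hli, z, hz1, hz2⟩ := hcross
  have key : ∀ p q x : ℂ, z ∈ openSegment ℝ p q → x ∈ segment ℝ p q →
      ∃ s : ℝ, x = z + s * (q - p) := by
    rintro p q x ⟨a, b, -, -, hab, rfl⟩ ⟨c, d, -, -, hcd, rfl⟩
    refine ⟨d - b, ?_⟩
    have h1 : (a : ℂ) = 1 - b := by
      have : a = 1 - b := by linarith
      rw [this]; push_cast; ring
    have h2 : (c : ℂ) = 1 - d := by
      have : c = 1 - d := by linarith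
      rw [this]; push_cast; ring
    simp only [Complex.real_smul]
    rw [h1, h2]
    push_cast
    ring
  exact hlines n A B hA hB α β hα hβ z (q - p) (q' - p') hli (fun i => key p q _ hz1 (hLA i))
    (fun i => key p' q' _ hz2 (hLB i))

end Pool.Agent.Results.MP_16c41e_an.CrossingSegments
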